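import Mathlib
import Pool.Agent.H81.Isoth

set_option autoImplicit false

open Set Filter Topology Pool.Agent.H81
open scoped ContDiff

namespace Pool.Agent.Results.MP_9703cd_gt.NotIsothermal

/-- `T`, restricted to the unit square, is a continuous t-norm. -/
structure IsContTNorm (T : ℝ × ℝ → ℝ) : Prop where
  maps : ∀ x ∈ Icc (0 : ℝ) 1, ∀ y ∈ Icc (0 : ℝ) 1, T (x, y) ∈ Icc (0 : ℝ) 1
  assoc : ∀ x ∈ Icc (0 : ℝ) 1, ∀ y ∈ Icc (0 : ℝ) 1, ∀ z ∈ Icc (0 : ℝ) 1,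
    T (T (x, y), z) = T (x, T (y, z))
  comm : ∀ x ∈ Icc (0 : ℝ) 1, ∀ y ∈ Icc (0 : ℝ) 1, T (x, y) = T (y, x)
  mono : ∀ x ∈ Icc (0 : ℝ) 1, ∀ x' ∈ Icc (0 : ℝ) 1, ∀ y ∈ Icc (0 : ℝ) 1, ∀ y' ∈ Icc (0 : ℝ) 1,
    x ≤ x' → y ≤ y' → T (x, y) ≤ T (x', y')
  one : ∀ x ∈ Icc (0 : ℝ) 1, T (x, 1) = x
  cont : ContinuousOn T (Icc (0 : ℝ) 1 ×ˢ Icc (0 : ℝ) 1)

/-- First fundamental form of the graph of `f` over the point `z`, on the tangent vectors
lying over `w` and `w'`. -/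
noncomputable def firstForm (f : ℝ × ℝ → ℝ) (z w w' : ℝ × ℝ) : ℝ :=
  w.1 * w'.1 + w.2 * w'.2 + fderiv ℝ f z w * fderiv ℝ f z w'

/-- Second fundamental form of the graph of `f` (upward unit normal). -/
noncomputable def secondForm (f : ℝ × ℝ → ℝ) (z w w' : ℝ × ℝ) : ℝ :=
  fderiv ℝ (fun y => fderiv ℝ f y w') z w /
    Real.sqrt (1 + fderiv ℝ f z (1, 0) ^ 2 + fderiv ℝ f z (0, 1) ^ 2)

/-- `w` is an eigenvector (or zero) of the shape operator of the graph over `z`. -/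
def Principal (f : ℝ × ℝ → ℝ) (z w : ℝ × ℝ) : Prop :=
  ∃ κ : ℝ, ∀ w', secondForm f z w w' = κ * firstForm f z w w'

/-- The point of the graph over `z` is umbilic. -/
def Umbilic (f : ℝ × ℝ → ℝ) (z : ℝ × ℝ) : Prop :=
  ∃ κ : ℝ, ∀ w w', secondForm f z w w' = κ * firstForm f z w w'

/-- There are local parameters `(u, v)` near the point over `p` with
`ds^2 = lam (du^2 + dv^2)`, `lam > 0`, whose coordinate curves `u = const` and `v = const` are
everywhere tangent to principal directions. -/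
def IsothermalNear (f : ℝ × ℝ → ℝ) (p : ℝ × ℝ) : Prop :=
  ∃ (W : Set (ℝ × ℝ)) (u v lam : ℝ × ℝ → ℝ), IsOpen W ∧ p ∈ W ∧
    ContDiffOn ℝ 3 u W ∧ ContDiffOn ℝ 3 v W ∧ ∀ z ∈ W, 0 < lam z ∧
      (∀ w, firstForm f z w w = lam z * (fderiv ℝ u z w ^ 2 + fderiv ℝ v z w ^ 2)) ∧
      (∀ w, fderiv ℝ u z w = 0 → Principal f z w) ∧
      (∀ w, fderiv ℝ v z w = 0 → Principal f z w)

noncomputable def sg (t : ℝ) : ℝ := max (t / 4) (t ^ 3)

lemma sg_mono : StrictMono sg := by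
  intro a b h
  have h3 : a ^ 3 < b ^ 3 := (Odd.strictMono_pow (by decide : Odd 3)) h
  exact max_lt_max (by linarith) h3

lemma sg_surj : Function.Surjective sg := by
  have hc : Continuous sg := by unfold sg; fun_prop
  refine hc.surjective ?_ ?_
  · exact tendsto_atTop_mono (f := fun t : ℝ => t / 4) (fun t => le_max_left _ _)
      (tendsto_id.atTop_div_const (by norm_num))
  · refine tendsto_atBot_mono' atBot (f₁ := fun t : ℝ => t / 4) ?_
      (tendsto_id.atBot_div_const (by norm_num : (0 : ℝ) < 4))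
    filter_upwards [eventually_le_atBot (-1 : ℝ)] with t ht
    refine max_le le_rfl ?_
    nlinarith [mul_nonneg (by linarith : (0 : ℝ) ≤ -t) (by nlinarith : (0 : ℝ) ≤ t ^ 2 - 1)]

noncomputable def s : ℝ ≃o ℝ := sg_mono.orderIsoOfSurjective sg sg_surj

lemma s_apply (t : ℝ) : s t = max (t / 4) (t ^ 3) := rfl

lemma s0 : s 0 = 0 := by simp [s_apply]
lemma s1 : s 1 = 1 := by rw [s_apply]; norm_num

lemma s_mem {x : ℝ} (hx : x ∈ Icc (0 : ℝ) 1) : s x ∈ Icc (0 : ℝ) 1 :=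
  ⟨s0 ▸ s.monotone hx.1, s1 ▸ s.monotone hx.2⟩

noncomputable def T (z : ℝ × ℝ) : ℝ := s.symm (max (s z.1 + s z.2 - 1) 0)

lemma T_tnorm : IsContTNorm T where
  maps x hx y hy := by
    have h1 := s_mem hx; have h2 := s_mem hy
    constructor
    · rw [T, s.le_symm_apply, s0]; exact le_max_right _ _
    · rw [T, s.symm_apply_le, s1]; exact max_le (by linarith [h1.2, h2.2]) zero_le_one
  assoc x hx y hy z hz := by
    have h1 := s_mem hx; have h2 := s_mem hy; have h3 := s_mem hz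
    simp only [T, OrderIso.apply_symm_apply]
    congr 1
    obtain ⟨a0, a1⟩ := h1; obtain ⟨b0, b1⟩ := h2; obtain ⟨c0, c1⟩ := h3
    simp only [max_def]
    split_ifs <;> linarith
  comm x _ y _ := by simp only [T, add_comm]
  mono x _ x' _ y _ y' _ h h' := by
    apply s.symm.monotone
    exact max_le_max (by linarith [s.monotone h, s.monotone h']) le_rfl
  one x hx := by
    have h1 := s_mem hx
    simp only [T, s1, add_sub_cancel_right]
    rw [max_eq_left h1.1, s.symm_apply_apply]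
  cont := by
    have h1 := s.continuous; have h2 := s.symm.continuous
    exact (by unfold T; fun_prop : Continuous T).continuousOn

def U : Set (ℝ × ℝ) := {z | 1 / 2 < z.1 ∧ z.1 < 1 ∧ 1 / 2 < z.2 ∧ z.2 < 1 ∧
  1 < z.1 ^ 3 + z.2 ^ 3 ∧ z.1 ^ 3 + z.2 ^ 3 < 9 / 8}

lemma U_open : IsOpen U := by
  unfold U
  simp only [setOf_and]
  refine IsOpen.inter ?_ (IsOpen.inter ?_ (IsOpen.inter ?_ (IsOpen.inter ?_
    (IsOpen.inter ?_ ?_)))) <;> exact isOpen_lt (by fun_prop) (by fun_prop)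

def f0 (z : ℝ × ℝ) : ℝ := 4 * (z.1 ^ 3 + z.2 ^ 3 - 1)

lemma s_big {t : ℝ} (h : 1 / 2 < t) : s t = t ^ 3 := by
  rw [s_apply]; refine max_eq_right ?_
  nlinarith [mul_nonneg (by linarith : (0 : ℝ) ≤ t) (by nlinarith : (0 : ℝ) ≤ t ^ 2 - 1 / 4)]

lemma T_eq {z : ℝ × ℝ} (hz : z ∈ U) : T z = f0 z := by
  obtain ⟨h1, -, h2, -, h3, h4⟩ := hz
  rw [T, s.symm_apply_eq, s_big h1, s_big h2, max_eq_left (by linarith), s_apply]
  have a0 : 0 ≤ f0 z := by unfold f0; linarith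
  have a1 : f0 z ≤ 1 / 2 := by unfold f0; linarith
  rw [max_eq_left]
  · unfold f0; ring
  · nlinarith [mul_nonneg a0 (by nlinarith : (0 : ℝ) ≤ 1 / 4 - f0 z ^ 2)]

lemma T_ev {z : ℝ × ℝ} (hz : z ∈ U) : T =ᶠ[𝓝 z] f0 := by
  filter_upwards [U_open.mem_nhds hz] with w hw using T_eq hw

lemma d_f0 (z w : ℝ × ℝ) : fderiv ℝ f0 z w = 12 * z.1 ^ 2 * w.1 + 12 * z.2 ^ 2 * w.2 := by
  have h := ((((hasFDerivAt_fst (𝕜 := ℝ) (p := z)).pow 3).fun_add
    ((hasFDerivAt_snd (𝕜 := ℝ) (p := z)).pow 3)).sub_const 1).const_mul (4 : ℝ)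
  have e : fderiv ℝ f0 z = _ := h.fderiv
  rw [e]; simp; ring

lemma d_T {z : ℝ × ℝ} (hz : z ∈ U) (w : ℝ × ℝ) :
    fderiv ℝ T z w = 12 * z.1 ^ 2 * w.1 + 12 * z.2 ^ 2 * w.2 := by
  rw [(T_ev hz).fderiv_eq, d_f0]

lemma dd_T {z : ℝ × ℝ} (hz : z ∈ U) (w w' : ℝ × ℝ) :
    fderiv ℝ (fun y => fderiv ℝ T y w') z w = 24 * z.1 * w.1 * w'.1 + 24 * z.2 * w.2 * w'.2 := by
  have e : (fun y => fderiv ℝ T y w') =ᶠ[𝓝 z]
      fun y => 12 * y.1 ^ 2 * w'.1 + 12 * y.2 ^ 2 * w'.2 := by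
    filter_upwards [U_open.mem_nhds hz] with y hy using d_T hy w'
  rw [e.fderiv_eq]
  have h := (((((hasFDerivAt_fst (𝕜 := ℝ) (p := z)).pow 2).const_mul (12 : ℝ)).mul_const w'.1).fun_add
    ((((hasFDerivAt_snd (𝕜 := ℝ) (p := z)).pow 2).const_mul (12 : ℝ)).mul_const w'.2))
  rw [h.fderiv]; simp; ring

lemma lin (L : ℝ × ℝ →L[ℝ] ℝ) (a b : ℝ) : L (a, b) = a * L (1, 0) + b * L (0, 1) := by
  have : ((a, b) : ℝ × ℝ) = a • ((1, 0) : ℝ × ℝ) + b • ((0, 1) : ℝ × ℝ) := by simp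
  rw [this, map_add, map_smul, map_smul]; rfl

theorem result : ∃ (T : ℝ × ℝ → ℝ) (U : Set (ℝ × ℝ)) (p : ℝ × ℝ), IsContTNorm T ∧ IsOpen U ∧
    U ⊆ Ioo (0 : ℝ) 1 ×ˢ Ioo (0 : ℝ) 1 ∧ ContDiffOn ℝ ∞ T U ∧ p ∈ U ∧ ¬ Umbilic T p ∧
    ¬ IsothermalNear T p := by
  have hp : ((3 / 4, 7 / 8) : ℝ × ℝ) ∈ U := by simp only [U, mem_setOf_eq]; norm_num
  refine ⟨T, U, (3 / 4, 7 / 8), T_tnorm, U_open, ?_, ?_, hp, ?_, ?_⟩
  · rintro z ⟨h1, h2, h3, h4, -⟩
    exact ⟨⟨by linarith, h2⟩, ⟨by linarith, h4⟩⟩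
  · exact (by unfold f0; fun_prop : ContDiff ℝ ∞ f0).contDiffOn.congr fun z hz => T_eq hz
  · rintro ⟨κ, h⟩
    have h1 := h (1, 0) (0, 1)
    have h2 := h (1, 0) (1, 0)
    simp only [secondForm, firstForm, dd_T hp, d_T hp] at h1 h2
    norm_num at h1
    rw [h1] at h2
    norm_num at h2
  · rintro ⟨W, u, v, lam, hW, hpW, hu, hv, h⟩
    have hb : ∀ z ∈ W ∩ U, Isoth.Ff z.1 z.2 = lam z * (fderiv ℝ u z (1, 0) * fderiv ℝ u z (0, 1)
        + fderiv ℝ v z (1, 0) * fderiv ℝ v z (0, 1)) := by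
      intro z hz
      have a := (h z hz.1).2.1 (1, 0); have b := (h z hz.1).2.1 (0, 1)
      have c := (h z hz.1).2.1 (1, 1)
      rw [lin (fderiv ℝ u z) 1 1, lin (fderiv ℝ v z) 1 1] at c
      simp only [firstForm, d_T hz.2] at a b c
      unfold Isoth.Ff
      linear_combination (c - a - b) / 2
    have ha : ∀ z ∈ W ∩ U, Isoth.Ef z.1
        = lam z * (fderiv ℝ u z (1, 0) ^ 2 + fderiv ℝ v z (1, 0) ^ 2) := by
      intro z hz
      have a := (h z hz.1).2.1 (1, 0)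
      simp only [firstForm, d_T hz.2] at a
      unfold Isoth.Ef
      linear_combination a
    have hc : ∀ z ∈ W ∩ U, Isoth.Ef z.2
        = lam z * (fderiv ℝ u z (0, 1) ^ 2 + fderiv ℝ v z (0, 1) ^ 2) := by
      intro z hz
      have a := (h z hz.1).2.1 (0, 1)
      simp only [firstForm, d_T hz.2] at a
      unfold Isoth.Ef
      linear_combination a
    refine Isoth.core (W := W ∩ U) (u := u) (v := v) (lam := lam) (hW.inter U_open) ?_ ⟨hpW, hp⟩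
      (hu.mono inter_subset_left) (hv.mono inter_subset_left) (fun z hz => (h z hz.1).1)
      ha hb hc ?_
    · rintro z ⟨-, h1, -, h2, -⟩
      exact ⟨by linarith, by linarith⟩
    · intro z hz
      obtain ⟨κ, hκ⟩ := (h z hz.1).2.2.1 (fderiv ℝ u z (0, 1), -fderiv ℝ u z (1, 0))
        (by rw [lin]; ring)
      have e := hκ (fderiv ℝ v z (0, 1), -fderiv ℝ v z (1, 0))
      have e1 := ha z hz; have e2 := hb z hz; have e3 := hc z hz
      have e4 : firstForm T z (fderiv ℝ u z (0, 1), -fderiv ℝ u z (1, 0))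
          (fderiv ℝ v z (0, 1), -fderiv ℝ v z (1, 0)) = 0 := by
        simp only [firstForm, d_T hz.2]
        unfold Isoth.Ef at e1 e3
        unfold Isoth.Ff at e2
        linear_combination (fderiv ℝ u z (0, 1) * fderiv ℝ v z (0, 1)) * e1
          - (fderiv ℝ u z (0, 1) * fderiv ℝ v z (1, 0) + fderiv ℝ u z (1, 0) * fderiv ℝ v z (0, 1)) * e2
          + (fderiv ℝ u z (1, 0) * fderiv ℝ v z (1, 0)) * e3
      rw [e4, mul_zero, secondForm, div_eq_zero_iff, dd_T hz.2] at e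
      rcases e with e | e
      · linear_combination e / 24
      · exact absurd e (Real.sqrt_pos.2 (by positivity)).ne'

end Pool.Agent.Results.MP_9703cd_gt.NotIsothermal
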